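import Pool.Agent.Q100.Z2Main

/-!
# A compatible pair on the Kalton-Peck space with noncompact difference

The definitions are in `Pool/Agent/Q100/Z2Defs.lean` (`Pairs`, `nrm`, `KPm`, `qn`, `zeroBasis`,
`Z2`, `IsExact`, `CompatiblePair`) and `Pool/Agent/Q100/KPDefs.lean` (`E2`).
-/

set_option autoImplicit false

namespace Pool.Agent.Results.MP_23ded2_an.NotCompactPair

open Q100.KP

/-- The negated form of Q1: there are an exact sequence `0 → ℓ₂ → Z₂ → ℓ₂ → 0` and a pair `(T, U)`
compatible with it such that `T - U` is not compact. -/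
theorem result : ∃ (j : E2 →L[ℝ] Z2) (q : Z2 →L[ℝ] E2), IsExact j q ∧
    ∃ T U : E2 →L[ℝ] E2, CompatiblePair j q T U ∧ ¬ IsCompactOperator (T - U) :=
  main_Z2

end Pool.Agent.Results.MP_23ded2_an.NotCompactPair
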